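import Pool.Agent.TH722.K6.Second

/-!
# The sixth cumulant is positive for second chaos elements with multilinear coefficients
(MP_a60258_pr)

We consider elements of the chaos of order `p = m + 3 ≥ 3` of the form
`X = ∑_{i,j} A_ij(g) (y_i y_j - δ_ij)`, where `y` is a standard Gaussian vector and `A(g)` is a
symmetric matrix whose entries are `(p - 2)`-linear forms in `p - 2` further independent standard
Gaussian vectors. We show `κ₆(X) ≥ 960 tr (M³)`, where `M` is the Gram matrix of the last linear
index of the kernel; in particular `κ₆(X) > 0` unless `X = 0`. The decoupled elements of the chaos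
(`p`-linear forms in `p` independent Gaussian vectors) are a special case.
-/

set_option autoImplicit false

open MeasureTheory ProbabilityTheory Finset MvPolynomial

namespace Pool.Agent.Results.MP_a60258_pr.MultilinearSecondChaos

/-- the law of independent standard Gaussian variables `g (k, j)`, `k < b`, `j < n` -/
noncomputable def gauss (b n : ℕ) : Measure (Fin b × Fin n → ℝ) :=
  Measure.pi fun _ => gaussianReal 0 1

/-- the random variable `∑_{i,j} (∑_J t_{J,i,j} g_{0,J_0} ⋯ g_{m,J_m}) (y_i y_j - δ_ij)`, where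
`y_i = g (m + 1, i)` is the last block -/
noncomputable def form {m n : ℕ} (t : (Fin (m + 1) → Fin n) → Fin n → Fin n → ℝ)
    (g : Fin (m + 2) × Fin n → ℝ) : ℝ :=
  ∑ i, ∑ j, (∑ J : Fin (m + 1) → Fin n, t J i j * ∏ k : Fin (m + 1), g (k.castSucc, J k)) *
    (g (Fin.last (m + 1), i) * g (Fin.last (m + 1), j) - if i = j then 1 else 0)

/-- the sixth cumulant of a centred random variable -/
noncomputable def kappa6 {Ω : Type} [MeasurableSpace Ω] (μ : Measure Ω) (X : Ω → ℝ) : ℝ :=
  (∫ ω, X ω ^ 6 ∂μ) - 15 * (∫ ω, X ω ^ 2 ∂μ) * (∫ ω, X ω ^ 4 ∂μ)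
    - 10 * (∫ ω, X ω ^ 3 ∂μ) ^ 2 + 30 * (∫ ω, X ω ^ 2 ∂μ) ^ 3

/-- the Gram matrix of the last linear index of the kernel -/
noncomputable def gram {m n : ℕ} (t : (Fin (m + 1) → Fin n) → Fin n → Fin n → ℝ)
    (i j : Fin n) : ℝ :=
  ∑ J : Fin m → Fin n, ∑ k, ∑ l, t (Fin.snoc J i) k l * t (Fin.snoc J j) k l

open Pool.Agent.TH722.K6

/-- a kernel as a function of lists -/
noncomputable def lst {p n : ℕ} (t : (Fin p → Fin n) → ℝ) (I : List (Fin n)) : ℝ :=
  if h : I.length = p then t (fun k => I.get (Fin.cast h.symm k)) else 0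

theorem lst_ofFn {p n : ℕ} (t : (Fin p → Fin n) → ℝ) (J : Fin p → Fin n) :
    lst t (List.ofFn J) = t J := by
  unfold lst
  rw [dif_pos (List.length_ofFn)]
  congr 1
  funext k
  simp

theorem eval_F {β : Type} [Fintype β] [DecidableEq β] {p n : ℕ} (b : Fin p → β)
    (t : (Fin p → Fin n) → ℝ) (g : β × Fin n → ℝ) :
    MvPolynomial.eval g (F (List.ofFn b) (lst t)) = ∑ J, t J * ∏ k, g (b k, J k) := by
  rw [F_ofFn]
  simp only [map_sum, map_mul, eval_C, map_prod, eval_X, lst_ofFn]

/-- **Result.** Let `m` be a natural number, `p = m + 3`, `t` a kernel, symmetric in its last two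
indices, and `X = form t` the element
`∑ t_{J,i,j} g_{0,J_0} ⋯ g_{m,J_m} (y_i y_j - δ_ij)` of the chaos of order `p`. Then
`κ₆(X) ≥ 960 tr (M³)`, `M` the Gram matrix of the last linear index of `t`, and `κ₆(X) > 0` unless
`t = 0`. -/
theorem result (m n : ℕ) (t : (Fin (m + 1) → Fin n) → Fin n → Fin n → ℝ)
    (ht : ∀ J i j, t J i j = t J j i) :
    960 * ∑ i, ∑ j, ∑ k, gram t i j * gram t j k * gram t k i ≤
      kappa6 (gauss (m + 2) n) (form t) ∧
    (t ≠ 0 → 0 < kappa6 (gauss (m + 2) n) (form t)) := by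
  set a : Fin n × Fin n → List (Fin n) → ℝ := fun s => lst (fun J => t J s.1 s.2) with ha
  set y : Fin (m + 2) := Fin.last (m + 1) with hy
  set b : Fin (m + 1) → Fin (m + 2) := fun k => k.castSucc with hb
  set L : List (Fin (m + 2)) := List.ofFn (fun k : Fin m => (k.succ).castSucc) with hL
  set c : Fin (m + 2) := (0 : Fin (m + 1)).castSucc with hc
  have hLb : List.ofFn b = c :: L := by rw [List.ofFn_succ]
  have hndb : (List.ofFn b).Nodup :=
    List.nodup_ofFn.2 fun x y h => Fin.castSucc_injective _ h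
  have hnd : (y :: c :: L).Nodup := by
    rw [← hLb, List.nodup_cons]
    refine ⟨fun h => ?_, hndb⟩
    rw [List.mem_ofFn] at h
    obtain ⟨k, hk⟩ := h
    exact (Fin.castSucc_lt_last k).ne hk
  have hnd2 := (List.nodup_cons.1 hnd).2
  have hsym : ∀ i j, a (i, j) = a (j, i) := by
    intro i j
    show lst (fun J => t J i j) = lst (fun J => t J j i)
    congr 1
    funext J
    exact ht J i j
  have hev : ∀ g : Fin (m + 2) × Fin n → ℝ,
      MvPolynomial.eval g (QF (c :: L) a y) = form t g := by
    intro g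
    have hA : ∀ i j, MvPolynomial.eval g (FM (c :: L) a i j) =
        ∑ J : Fin (m + 1) → Fin n, t J i j * ∏ k : Fin (m + 1), g (k.castSucc, J k) := by
      intro i j
      show MvPolynomial.eval g (F (c :: L) (lst (fun J => t J i j))) = _
      rw [← hLb, eval_F]
    unfold QF qf form
    simp only [map_sub, map_sum, map_mul, eval_X, hA, mul_sub, Finset.sum_sub_distrib]
    congr 1
    · refine Finset.sum_congr rfl fun i _ => Finset.sum_congr rfl fun j _ => ?_
      rw [hy]; ring
    · refine Finset.sum_congr rfl fun i _ => ?_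
      rw [Finset.sum_eq_single i]
      · rw [if_pos rfl, mul_one]
      · intro j _ hj; rw [if_neg (Ne.symm hj), mul_zero]
      · intro h; exact absurd (Finset.mem_univ i) h
  have hint : ∀ k : ℕ, ∫ g, form t g ^ k ∂(gauss (m + 2) n) = Ex (QF (c :: L) a y ^ k) := by
    intro k
    rw [Ex_apply]
    show _ = ∫ g, MvPolynomial.eval g (QF (c :: L) a y ^ k) ∂(gauss (m + 2) n)
    refine integral_congr_ae (Filter.Eventually.of_forall fun g => ?_)
    show form t g ^ k = MvPolynomial.eval g (QF (c :: L) a y ^ k)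
    rw [map_pow, hev]
  have hk : 120 * kap (c :: L) a ≤ kappa6 (gauss (m + 2) n) (form t) := by
    unfold kappa6
    rw [hint, hint, hint, hint]
    exact kappa_QF (c :: L) a y hnd hsym
  have hge := kap_ge L c (Fin n × Fin n) a hnd2
  have hlen : L.length = m := by rw [hL, List.length_ofFn]
  rw [hlen, Ml_eq] at hge
  have hval : ∀ (J : Fin m → Fin n) (i : Fin n) (s : Fin n × Fin n),
      a s (List.ofFn J ++ [i]) = t (Fin.snoc J i) s.1 s.2 := by
    intro J i s
    have e : List.ofFn J ++ [i] = List.ofFn (Fin.snoc J i : Fin (m + 1) → Fin n) := by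
      rw [List.ofFn_succ']
      simp [List.concat_eq_append]
    rw [e]
    exact lst_ofFn _ _
  have hM : Mm (fun (s : (Fin n × Fin n) × (Fin m → Fin n)) i =>
      a s.1 (List.ofFn s.2 ++ [i])) = gram t := by
    funext i j
    unfold Mm gram
    rw [Fintype.sum_prod_type, Finset.sum_comm]
    refine Finset.sum_congr rfl fun J _ => ?_
    rw [Fintype.sum_prod_type]
    refine Finset.sum_congr rfl fun k _ => Finset.sum_congr rfl fun l _ => ?_
    show a (k, l) (List.ofFn J ++ [i]) * a (k, l) (List.ofFn J ++ [j]) = _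
    rw [hval, hval]
  refine ⟨?_, fun h0 => ?_⟩
  · rw [hM] at hge
    unfold tr3 at hge
    linarith
  · obtain ⟨J, i, j, hJ⟩ : ∃ J i j, t J i j ≠ 0 := by
      by_contra hn
      push Not at hn
      exact h0 (funext fun J => funext fun i => funext fun j => hn J i j)
    have hpos := tr3_Mm_pos (fun (s : (Fin n × Fin n) × (Fin m → Fin n)) i =>
      a s.1 (List.ofFn s.2 ++ [i])) ⟨((i, j), fun k => J k.castSucc), J (Fin.last _), by
        show a (i, j) (List.ofFn (fun k : Fin m => J k.castSucc) ++ [J (Fin.last _)]) ≠ 0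
        rw [hval]
        have : (Fin.snoc (fun k : Fin m => J k.castSucc) (J (Fin.last m)) :
            Fin (m + 1) → Fin n) = J := Fin.snoc_init_self J
        rw [this]
        exact hJ⟩
    linarith

end Pool.Agent.Results.MP_a60258_pr.MultilinearSecondChaos
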